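import Mathlib
import Pool.Agent.Helper9.NS
import Pool.Agent.Helper15.GT.RDefs

/-!
# KP: surfaces with p_g = K ^ 2 = 1, definitions

Project KP (MP_83b46e_ag): Voisin's conjecture for the surfaces `z ^ 2 = a w + F`, `w ^ 2 = b z + G`.
-/

set_option linter.unusedSectionVars false

namespace Pool.Agent.Helper15.KP

open VC VF Function Polynomial Pool.Agent.Helper21.TO Pool.Agent.Helper15.GT

universe u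

/-! ### Functions on the rational places of a field -/

section places

variable (k F : Type u) [Field k] [IsAlgClosed k] [CharZero k] [Field F] [Algebra k F]

/-- A harmonic function on the rational places of `F`: it comes from a function on a projective model which kills
the cycles rationally equivalent to zero. -/
def HF (u : RPl k F → k) : Prop :=
  ∃ (M : ℕ) (ξ : Fin M → F) (hξ : ξ ≠ 0) (φ : (proj k (van k ξ)).Pt → k),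
    Kills (proj k (van k ξ)) φ ∧ ∀ w, u w = φ (evP ξ hξ w)

/-- A function on the rational places of `F` which vanishes on Albanese trivial combinations. -/
def Tv (g : RPl k F → k) : Prop :=
  ∀ a : RPl k F →₀ ℤ, AJ k F a → Finsupp.linearCombination ℤ g a = 0

end places

/-! ### Cubics in two variables -/

section cubic

variable {R : Type*} [CommRing R]

/-- The cubic with the coefficients `c` (of `s³, s²t, s², st², st, s, t³, t², t, 1`). -/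
def cub (c : Fin 10 → R) (s t : R) : R :=
  c 0 * s ^ 3 + c 1 * s ^ 2 * t + c 2 * s ^ 2 + c 3 * s * t ^ 2 + c 4 * s * t + c 5 * s + c 6 * t ^ 3 +
    c 7 * t ^ 2 + c 8 * t + c 9

/-- Forty-eight times the invariant `S` of a plane cubic. -/
def PS (c : Fin 10 → R) : R :=
  - 144 * c 0 * c 3 * c 7 * c 9 + 48 * c 0 * c 3 * c 8 ^ 2 + 216 * c 0 * c 4 * c 6 * c 9 - 24 * c 0 * c 4 * c 7 * c 8
  - 144 * c 0 * c 5 * c 6 * c 8 + 48 * c 0 * c 5 * c 7 ^ 2 + 48 * c 1 ^ 2 * c 7 * c 9 - 16 * c 1 ^ 2 * c 8 ^ 2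
  - 144 * c 1 * c 2 * c 6 * c 9 + 16 * c 1 * c 2 * c 7 * c 8 - 24 * c 1 * c 3 * c 4 * c 9 + 16 * c 1 * c 3 * c 5 * c 8
  + 8 * c 1 * c 4 ^ 2 * c 8 - 24 * c 1 * c 4 * c 5 * c 7 + 48 * c 1 * c 5 ^ 2 * c 6 + 48 * c 2 ^ 2 * c 6 * c 8
  - 16 * c 2 ^ 2 * c 7 ^ 2 + 48 * c 2 * c 3 ^ 2 * c 9 - 24 * c 2 * c 3 * c 4 * c 8 + 16 * c 2 * c 3 * c 5 * c 7
  + 8 * c 2 * c 4 ^ 2 * c 7 - 24 * c 2 * c 4 * c 5 * c 6 - 16 * c 3 ^ 2 * c 5 ^ 2 + 8 * c 3 * c 4 ^ 2 * c 5 - c 4 ^ 4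

/-- 864 times the invariant `T` of a plane cubic. -/
def PT (c : Fin 10 → R) : R :=
  - 5832 * c 0 ^ 2 * c 6 ^ 2 * c 9 ^ 2 + 3888 * c 0 ^ 2 * c 6 * c 7 * c 8 * c 9
  - 864 * c 0 ^ 2 * c 6 * c 8 ^ 3 - 864 * c 0 ^ 2 * c 7 ^ 3 * c 9 + 216 * c 0 ^ 2 * c 7 ^ 2 * c 8 ^ 2
  + 3888 * c 0 * c 1 * c 3 * c 6 * c 9 ^ 2 - 1296 * c 0 * c 1 * c 3 * c 7 * c 8 * c 9
  + 288 * c 0 * c 1 * c 3 * c 8 ^ 3 - 1296 * c 0 * c 1 * c 4 * c 6 * c 8 * c 9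
  + 864 * c 0 * c 1 * c 4 * c 7 ^ 2 * c 9 - 144 * c 0 * c 1 * c 4 * c 7 * c 8 ^ 2
  - 1296 * c 0 * c 1 * c 5 * c 6 * c 7 * c 9 + 864 * c 0 * c 1 * c 5 * c 6 * c 8 ^ 2
  - 144 * c 0 * c 1 * c 5 * c 7 ^ 2 * c 8 - 1296 * c 0 * c 2 * c 3 * c 6 * c 8 * c 9
  + 864 * c 0 * c 2 * c 3 * c 7 ^ 2 * c 9 - 144 * c 0 * c 2 * c 3 * c 7 * c 8 ^ 2
  - 1296 * c 0 * c 2 * c 4 * c 6 * c 7 * c 9 + 864 * c 0 * c 2 * c 4 * c 6 * c 8 ^ 2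
  - 144 * c 0 * c 2 * c 4 * c 7 ^ 2 * c 8 + 3888 * c 0 * c 2 * c 5 * c 6 ^ 2 * c 9
  - 1296 * c 0 * c 2 * c 5 * c 6 * c 7 * c 8 + 288 * c 0 * c 2 * c 5 * c 7 ^ 3
  - 864 * c 0 * c 3 ^ 3 * c 9 ^ 2 + 864 * c 0 * c 3 ^ 2 * c 4 * c 8 * c 9
  + 864 * c 0 * c 3 ^ 2 * c 5 * c 7 * c 9 - 576 * c 0 * c 3 ^ 2 * c 5 * c 8 ^ 2
  - 648 * c 0 * c 3 * c 4 ^ 2 * c 7 * c 9 - 72 * c 0 * c 3 * c 4 ^ 2 * c 8 ^ 2
  - 1296 * c 0 * c 3 * c 4 * c 5 * c 6 * c 9 + 720 * c 0 * c 3 * c 4 * c 5 * c 7 * c 8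
  + 864 * c 0 * c 3 * c 5 ^ 2 * c 6 * c 8 - 576 * c 0 * c 3 * c 5 ^ 2 * c 7 ^ 2
  + 540 * c 0 * c 4 ^ 3 * c 6 * c 9 + 36 * c 0 * c 4 ^ 3 * c 7 * c 8 - 648 * c 0 * c 4 ^ 2 * c 5 * c 6 * c 8
  - 72 * c 0 * c 4 ^ 2 * c 5 * c 7 ^ 2 + 864 * c 0 * c 4 * c 5 ^ 2 * c 6 * c 7
  - 864 * c 0 * c 5 ^ 3 * c 6 ^ 2 - 864 * c 1 ^ 3 * c 6 * c 9 ^ 2 + 288 * c 1 ^ 3 * c 7 * c 8 * c 9
  - 64 * c 1 ^ 3 * c 8 ^ 3 + 864 * c 1 ^ 2 * c 2 * c 6 * c 8 * c 9 - 576 * c 1 ^ 2 * c 2 * c 7 ^ 2 * c 9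
  + 96 * c 1 ^ 2 * c 2 * c 7 * c 8 ^ 2 + 216 * c 1 ^ 2 * c 3 ^ 2 * c 9 ^ 2
  - 144 * c 1 ^ 2 * c 3 * c 4 * c 8 * c 9 - 144 * c 1 ^ 2 * c 3 * c 5 * c 7 * c 9
  + 96 * c 1 ^ 2 * c 3 * c 5 * c 8 ^ 2 - 72 * c 1 ^ 2 * c 4 ^ 2 * c 7 * c 9
  + 48 * c 1 ^ 2 * c 4 ^ 2 * c 8 ^ 2 + 864 * c 1 ^ 2 * c 4 * c 5 * c 6 * c 9
  - 144 * c 1 ^ 2 * c 4 * c 5 * c 7 * c 8 - 576 * c 1 ^ 2 * c 5 ^ 2 * c 6 * c 8
  + 216 * c 1 ^ 2 * c 5 ^ 2 * c 7 ^ 2 + 864 * c 1 * c 2 ^ 2 * c 6 * c 7 * c 9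
  - 576 * c 1 * c 2 ^ 2 * c 6 * c 8 ^ 2 + 96 * c 1 * c 2 ^ 2 * c 7 ^ 2 * c 8
  - 144 * c 1 * c 2 * c 3 ^ 2 * c 8 * c 9 + 720 * c 1 * c 2 * c 3 * c 4 * c 7 * c 9
  - 144 * c 1 * c 2 * c 3 * c 4 * c 8 ^ 2 - 1296 * c 1 * c 2 * c 3 * c 5 * c 6 * c 9
  + 48 * c 1 * c 2 * c 3 * c 5 * c 7 * c 8 - 648 * c 1 * c 2 * c 4 ^ 2 * c 6 * c 9
  + 24 * c 1 * c 2 * c 4 ^ 2 * c 7 * c 8 + 720 * c 1 * c 2 * c 4 * c 5 * c 6 * c 8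
  - 144 * c 1 * c 2 * c 4 * c 5 * c 7 ^ 2 - 144 * c 1 * c 2 * c 5 ^ 2 * c 6 * c 7
  - 144 * c 1 * c 3 ^ 2 * c 4 * c 5 * c 9 + 96 * c 1 * c 3 ^ 2 * c 5 ^ 2 * c 8
  + 36 * c 1 * c 3 * c 4 ^ 3 * c 9 + 24 * c 1 * c 3 * c 4 ^ 2 * c 5 * c 8
  - 144 * c 1 * c 3 * c 4 * c 5 ^ 2 * c 7 + 288 * c 1 * c 3 * c 5 ^ 3 * c 6 - 12 * c 1 * c 4 ^ 4 * c 8
  + 36 * c 1 * c 4 ^ 3 * c 5 * c 7 - 72 * c 1 * c 4 ^ 2 * c 5 ^ 2 * c 6 - 864 * c 2 ^ 3 * c 6 ^ 2 * c 9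
  + 288 * c 2 ^ 3 * c 6 * c 7 * c 8 - 64 * c 2 ^ 3 * c 7 ^ 3 - 576 * c 2 ^ 2 * c 3 ^ 2 * c 7 * c 9
  + 216 * c 2 ^ 2 * c 3 ^ 2 * c 8 ^ 2 + 864 * c 2 ^ 2 * c 3 * c 4 * c 6 * c 9
  - 144 * c 2 ^ 2 * c 3 * c 4 * c 7 * c 8 - 144 * c 2 ^ 2 * c 3 * c 5 * c 6 * c 8
  + 96 * c 2 ^ 2 * c 3 * c 5 * c 7 ^ 2 - 72 * c 2 ^ 2 * c 4 ^ 2 * c 6 * c 8
  + 48 * c 2 ^ 2 * c 4 ^ 2 * c 7 ^ 2 - 144 * c 2 ^ 2 * c 4 * c 5 * c 6 * c 7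
  + 216 * c 2 ^ 2 * c 5 ^ 2 * c 6 ^ 2 + 288 * c 2 * c 3 ^ 3 * c 5 * c 9 - 72 * c 2 * c 3 ^ 2 * c 4 ^ 2 * c 9
  - 144 * c 2 * c 3 ^ 2 * c 4 * c 5 * c 8 + 96 * c 2 * c 3 ^ 2 * c 5 ^ 2 * c 7
  + 36 * c 2 * c 3 * c 4 ^ 3 * c 8 + 24 * c 2 * c 3 * c 4 ^ 2 * c 5 * c 7
  - 144 * c 2 * c 3 * c 4 * c 5 ^ 2 * c 6 - 12 * c 2 * c 4 ^ 4 * c 7 + 36 * c 2 * c 4 ^ 3 * c 5 * c 6
  - 64 * c 3 ^ 3 * c 5 ^ 3 + 48 * c 3 ^ 2 * c 4 ^ 2 * c 5 ^ 2 - 12 * c 3 * c 4 ^ 4 * c 5 + c 4 ^ 6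

/-- The discriminant of the cubic, up to a constant. -/
def Dsc (c : Fin 10 → R) : R := PS c ^ 3 + PT c ^ 2

/-- The discriminant of the binary cubic of the leading terms. -/
def Dbin (c : Fin 10 → R) : R :=
  c 1 ^ 2 * c 3 ^ 2 - 4 * c 0 * c 3 ^ 3 - 4 * c 1 ^ 3 * c 6 - 27 * c 0 ^ 2 * c 6 ^ 2 + 18 * c 0 * c 1 * c 3 * c 6

/-- The leading terms of the cubic in the direction `(v, 1)`. -/
def bin (c : Fin 10 → R) (v : R) : R := c 0 * v ^ 3 + c 1 * v ^ 2 + c 3 * v + c 6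

/-! On the line `s = r + v t` the cubic is `(a1 r + a0) t² + (b2 r² + b1 r + b0) t + (c 0 r³ + c 2 r² + c 5 r + c 9)`,
if `v` is a root of `bin c`; the discriminant is `q4 r⁴ + q3 r³ + q2 r² + q1 r + q0`. -/

def a1 (c : Fin 10 → R) (v : R) : R := 3 * c 0 * v ^ 2 + 2 * c 1 * v + c 3
def a0 (c : Fin 10 → R) (v : R) : R := c 2 * v ^ 2 + c 4 * v + c 7
def b2 (c : Fin 10 → R) (v : R) : R := 3 * c 0 * v + c 1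
def b1 (c : Fin 10 → R) (v : R) : R := 2 * c 2 * v + c 4
def b0 (c : Fin 10 → R) (v : R) : R := c 5 * v + c 8
def q4 (c : Fin 10 → R) (v : R) : R := b2 c v ^ 2 - 4 * a1 c v * c 0
def q3 (c : Fin 10 → R) (v : R) : R := 2 * b2 c v * b1 c v - 4 * (a1 c v * c 2 + a0 c v * c 0)
def q2 (c : Fin 10 → R) (v : R) : R := b1 c v ^ 2 + 2 * b2 c v * b0 c v - 4 * (a1 c v * c 5 + a0 c v * c 2)
def q1 (c : Fin 10 → R) (v : R) : R := 2 * b1 c v * b0 c v - 4 * (a1 c v * c 9 + a0 c v * c 5)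
def q0 (c : Fin 10 → R) (v : R) : R := b0 c v ^ 2 - 4 * a0 c v * c 9

/-- The square root of the discriminant. -/
def ww (c : Fin 10 → R) (v s t : R) : R :=
  2 * (a1 c v * (s - v * t) + a0 c v) * t + (b2 c v * (s - v * t) ^ 2 + b1 c v * (s - v * t) + b0 c v)

/-- The Weierstrass coordinates for the quartic `w² = q² r⁴ + e3 r³ + e2 r² + e1 r + e0`. -/
def xr (q e3 e2 r w : R) : R := 3 * (6 * q * (w + q * r ^ 2) + 3 * e3 * r + e2)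
def yr (q e3 e2 e1 r w : R) : R :=
  27 * (q * (4 * q ^ 2 * r ^ 3 + 3 * e3 * r ^ 2 + 2 * e2 * r + e1) + (4 * q ^ 2 * r + e3) * w)

/-- The Weierstrass coordinates of the point `(s, t)` of the cubic, the origin is the point at infinity in the
direction `v k`; the projection is from the point in the direction `v m`. -/
def xx (c : Fin 10 → R) (v : Fin 3 → R) (i k m : Fin 3) (s t : R) : R :=
  xr (c 0 * (v i - v k)) (q3 c (v m)) (q2 c (v m)) (s - v m * t) (ww c (v m) s t)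
def yy (c : Fin 10 → R) (v : Fin 3 → R) (i k m : Fin 3) (s t : R) : R :=
  yr (c 0 * (v i - v k)) (q3 c (v m)) (q2 c (v m)) (q1 c (v m)) (s - v m * t) (ww c (v m) s t)

/-- `v 0, v 1, v 2` are the roots of `bin c`. -/
def Rts (c : Fin 10 → R) (v : Fin 3 → R) : Prop :=
  c 1 = - c 0 * (v 0 + v 1 + v 2) ∧ c 3 = c 0 * (v 0 * v 1 + v 1 * v 2 + v 2 * v 0) ∧
    c 6 = - c 0 * v 0 * v 1 * v 2

end cubic

/-! ### The surface of pairs -/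

/-- The function field `F = k (τ, s, t)` of a surface fibred over the `τ`-line by plane cubics depending only on
`τ²`. -/
structure CD (k F : Type u) [Field k] [Field F] [Algebra k F] where
  τ : F
  s : F
  t : F
  ι : F ≃ₐ[k] F
  c : Fin 10 → k[X]
  ind : AlgebraicIndependent k ![τ, s]
  gen : IntermediateField.adjoin k {τ, s, t} = ⊤
  ιτ : ι τ = - τ
  ιs : ι s = s
  ιt : ι t = t
  eqn : cub (fun i => aeval (τ ^ 2) (c i)) s t = 0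
  c0 : c 0 ≠ 0
  bin : Dbin c ≠ 0
  dsc : Dsc c ≠ 0

/-- Voisin's property for `n > p` (cycles of degree zero) for all elliptic surfaces
`y² = x³ + A (l) x + B (l)`. -/
def EllVP (k : Type u) [Field k] [IsAlgClosed k] [CharZero k] (A B : k[X]) (p : ℕ) : Prop :=
  ∀ (E : Type u) [Field E] [Algebra k E] (l x y : E), AlgebraicIndependent k ![l, x] →
    y ^ 2 = x ^ 3 + aeval l A * x + aeval l B → IntermediateField.adjoin k {l, x, y} = ⊤ → VP k E p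

end Pool.Agent.Helper15.KP
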