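import Mathlib
import Pool.Agent.Helper9.NS
import Pool.Agent.Helper15.KP.Fam
import Pool.Agent.Helper15.GT.Ruled
import Pool.Agent.Helper15.GT.ExtP
import Pool.Agent.Helper15.GT.GZ

/-!
# KP: harmonic functions on places, basic facts
-/

set_option linter.unusedSectionVars false

namespace Pool.Agent.Helper15.KP

open VC VF Function Polynomial Pool.Agent.Helper21.TO Pool.Agent.Helper21.TB Pool.Agent.Helper15.GT
open Pool.Agent.Helper51.VN (Harm)

universe u

variable {k : Type u} [Field k] [IsAlgClosed k] [CharZero k] {F F' : Type u} [Field F] [Algebra k F]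
  [Field F'] [Algebra k F']

/-- Rational places can be lifted along embeddings of fields. -/
theorem exists_lift (f : F' →ₐ[k] F) (w : RPl k F') : ∃ w' : RPl k F, w'.comap f = w := by
  classical
  let B : Subalgebra k F' :=
    { w.ring.toSubring with
      algebraMap_mem' := fun c => w.alg c }
  have hB : ∀ z : B, (z : F') ∈ w.ring := fun z => z.2
  choose r hr using fun z : B => exists_rs (hB z)
  let θ₀ : B →ₐ[k] k :=
    { toFun := r
      map_one' := (hr 1).unique rs_one
      map_mul' := fun x y => (hr (x * y)).unique ((hr x).mul (hr y))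
      map_zero' := (hr 0).unique rs_zero
      map_add' := fun x y => (hr (x + y)).unique ((hr x).add (hr y))
      commutes' := fun c => (hr (algebraMap k B c)).unique (rs_const c) }
  let e := B.equivMapOfInjective f f.toRingHom.injective
  obtain ⟨w', hw'⟩ := exists_rpl (B.map f) (θ₀.comp (e.symm : B.map f →ₐ[k] B))
  have h1 : ∀ (z : F') (c : k), Rs w z c → Rs w' (f z) c := by
    intro z c hz
    have h2 := hw' (e ⟨z, hz.mem⟩)
    have h3 : (θ₀.comp (e.symm : B.map f →ₐ[k] B)) (e ⟨z, hz.mem⟩) = r ⟨z, hz.mem⟩ := by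
      change θ₀ (e.symm (e ⟨z, hz.mem⟩)) = _
      rw [AlgEquiv.symm_apply_apply]
      rfl
    rw [h3] at h2
    have h4 : r ⟨z, hz.mem⟩ = c := (hr _).unique hz
    rw [h4] at h2
    exact h2
  refine ⟨w', ?_⟩
  ext z
  constructor
  · intro hz
    by_contra hcon
    have h2 : Rs w z⁻¹ 0 := by
      rw [rs_zero_iff, ValuationSubring.mem_nonunits_iff_or, inv_inv]
      exact Or.inr hcon
    have hz0 : z ≠ 0 := by
      rintro rfl
      exact hcon w.ring.zero_mem
    have h3 := h1 _ _ h2
    obtain ⟨d, hd⟩ := exists_rs (w := w') (x := f z) hz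
    have h4 := h3.mul hd
    rw [← map_mul, inv_mul_cancel₀ hz0, map_one, zero_mul] at h4
    exact one_ne_zero (rs_one.unique h4)
  · intro hz
    obtain ⟨c, hc⟩ := exists_rs hz
    exact (h1 z c hc).mem

/-- A harmonic function on the places of the function field of a ruled surface comes from the base. -/
theorem HF.ruled {K : Type u} [Field K] [Algebra k K] (hK : IsFunctionField k K) (κ : K →ₐ[k] F) (x : F)
    (htr : ∀ p : K[X], p.eval₂ (κ : K →+* F) x = 0 → p = 0)
    (hgen : ∀ z : F, ∃ p q : K[X], q.eval₂ (κ : K →+* F) x ≠ 0 ∧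
      z * q.eval₂ (κ : K →+* F) x = p.eval₂ (κ : K →+* F) x) {u : RPl k F → k} (hu : HF k F u) :
    ∃ l : Place k K → k, Harm hK l ∧ ∀ w : RPl k F, u w = l (w.pl hK κ) := by
  obtain ⟨M, ξ, hξ, φ, hφ, hu⟩ := hu
  obtain ⟨l, hl, hw⟩ := ruled_base hK κ x htr hgen ξ hξ hφ
  exact ⟨l, hl, fun w => by rw [hu w, hw w]⟩

/-- Harmonic functions on a rational curve are constant. -/
theorem harm_rat {K : Type u} [Field K] [Algebra k K] (hK : IsFunctionField k K) (hg : IsGenus k K 0)
    {l : Place k K → k} (hl : Harm hK l) (P Q : Place k K) : l P = l Q := by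
  classical
  have h1 : (Finsupp.single P (1 : ℤ) - Finsupp.single Q 1).sum (fun _ c => c) = 0 := by
    rw [Finsupp.sum_sub_index (fun _ _ _ => rfl), Finsupp.sum_single_index rfl, Finsupp.sum_single_index rfl,
      sub_self]
  have h2 := harm_curve hl _ (mem_rat_of_genus_zero hK hg _ h1)
  rw [map_sub, Finsupp.linearCombination_single, Finsupp.linearCombination_single, one_smul, one_smul] at h2
  exact sub_eq_zero.mp h2

end Pool.Agent.Helper15.KP
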