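import Mathlib
import Pool.Agent.Helper9.NS
import Pool.Agent.Helper15.KP.Defs

/-!
# KP: the two main structures
-/

set_option linter.unusedSectionVars false

namespace Pool.Agent.Helper15.KP

open VC VF Function Polynomial Pool.Agent.Helper21.TO Pool.Agent.Helper15.GT

universe u

/-- Step A, one slot: `Ω` is a Galois extension of `F` with the group `G`, and of the function field `k (l, x, y)` of a
(twisted) elliptic surface with the group `Γ`; for every harmonic function `u` on the places of `F`, pull back to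
`Ω`, take the trace to `k (l, x, y)`, pull back to `Ω` and take the trace to `F`: up to a constant the result is
`card G * (np * u (w) - nm * u (ι w))`. -/
structure A1 {k F : Type u} [Field k] [IsAlgClosed k] [CharZero k] [Field F] [Algebra k F] (D : CD k F)
    (Ω : Type u) [Field Ω] [Algebra k Ω] (G Γ : Type u) [Group G] [Fintype G] [Group Γ] [Fintype Γ] where
  e : F →ₐ[k] Ω
  ρ : G →* (Ω ≃ₐ[k] Ω)
  fixF : ∀ z : Ω, (∀ g, ρ g z = z) ↔ z ∈ Set.range e
  l : Ω
  x : Ω
  y : Ω
  hl : l = e (D.τ ^ 2)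
  ind : AlgebraicIndependent k ![l, x]
  eqn : y ^ 2 = x ^ 3 + aeval l (27 * X ^ 2 * PS D.c) * x + aeval l (54 * X ^ 3 * PT D.c)
  ρ' : Γ →* (Ω ≃ₐ[k] Ω)
  fixE : ∀ z : Ω, (∀ g, ρ' g z = z) ↔ z ∈ IntermediateField.adjoin k {l, x, y}
  np : ℕ
  nm : ℕ
  hnp : 0 < np + nm
  main : ∀ u : RPl k F → k, HF k F u → ∃ C : k, ∀ w : RPl k Ω,
    ∑ h : G, ∑ g : Γ, u (((w.comap ((ρ h : Ω ≃ₐ[k] Ω) : Ω →ₐ[k] Ω)).comap
      ((ρ' g : Ω ≃ₐ[k] Ω) : Ω →ₐ[k] Ω)).comap e) =
      (Fintype.card G : k) * ((np : k) * u (w.comap e) -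
        (nm : k) * u ((w.comap e).comap ((D.ι : F ≃ₐ[k] F) : F →ₐ[k] F))) + C

/-- The field theory of a quartic extension `F` of `k (s, t)`: `N` is a Galois extension of `k (s, t)` with the group
`G`, there are four embeddings of `F` in `N`, `F6` is the fixed field of the stabilizer of the pair of the
embeddings `0, 1`. -/
structure QD (k F N F6 G : Type u) [Field k] [IsAlgClosed k] [CharZero k] [Field F] [Algebra k F]
    [Field N] [Algebra k N] [Field F6] [Algebra k F6] [Group G] [Fintype G] where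
  ρ : G →* (N ≃ₐ[k] N)
  e : Fin 4 → (F →ₐ[k] N)
  act : G →* Equiv.Perm (Fin 4)
  hact : ∀ g i x, ρ g (e i x) = e (act g i) x
  trans : ∀ i j, ∃ g, act g i = j
  /-- the base is rational -/
  s : N
  t : N
  ind : AlgebraicIndependent k ![s, t]
  base : ∀ z : N, (∀ g, ρ g z = z) ↔ z ∈ IntermediateField.adjoin k {s, t}
  fixF : ∀ z : N, (∀ g, act g 0 = 0 → ρ g z = z) ↔ z ∈ Set.range (e 0)
  e6 : F6 →ₐ[k] N
  fix6 : ∀ z : N, (∀ g, (act g 0 = 0 ∧ act g 1 = 1) ∨ (act g 0 = 1 ∧ act g 1 = 0) → ρ g z = z) ↔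
    z ∈ Set.range e6
  cd : CD k F6
  gι : G
  hgι : (act gι 0 = 2 ∧ act gι 1 = 3) ∨ (act gι 0 = 3 ∧ act gι 1 = 2)
  hι : ∀ z, ρ gι (e6 z) = e6 (cd.ι z)
  /-- every pair `0, j` is either conjugate to the pair `0, 1` or the sum over the pair is constant -/
  pair : ∀ j : Fin 4, j ≠ 0 → (∃ g, (act g 0 = 0 ∧ act g 1 = j) ∨ (act g 0 = j ∧ act g 1 = 0)) ∨
    ∀ u : RPl k F → k, HF k F u → ∃ C : k, ∀ w : RPl k N, u (w.comap (e 0)) + u (w.comap (e j)) = C

/-- The surface with function field `F` is regular: `F` does not contain the function field of a curve of positive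
genus. -/
def Reg (k F : Type u) [Field k] [Field F] [Algebra k F] : Prop :=
  ∀ (K : Type u) [Field K] [Algebra k K], IsFunctionField k K → (K →ₐ[k] F) → IsGenus k K 0

/-- The plane cubic `C_l`. Here `a`, `b` are linear forms and `f`, `g` cubic forms in three variables, the line at
infinity is `X 2 = 0`. -/
noncomputable def Cl {k : Type u} [Field k] (a b f g : MvPolynomial (Fin 3) k) (l : k) : MvPolynomial (Fin 3) k :=
  MvPolynomial.C (l ^ 3) * MvPolynomial.X 2 * b ^ 2 - MvPolynomial.C (4 * l ^ 2) * g +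
    MvPolynomial.C (4 * l) * f - MvPolynomial.X 2 * a ^ 2

end Pool.Agent.Helper15.KP
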