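import Mathlib
import Pool.Agent.Helper9.NS
import Pool.Agent.Helper15.KP.DefG
import Pool.Agent.Helper15.KP.HFb
import Pool.Agent.Helper15.KP.Trf

/-!
# KP: step A, the odd cycles on the surface of pairs
-/

set_option linter.unusedSectionVars false

namespace Pool.Agent.Helper15.KP

open VC VF Function Polynomial Pool.Agent.Helper21.TO Pool.Agent.Helper15.GT

universe u

variable {k : Type u} [Field k] [IsAlgClosed k] [CharZero k]

lemma VoisinOn.mono {X : Variety k} {H H' : Set X.Cycles} {n : ℕ} (h : VoisinOn X H n) (hH : H' ⊆ H) :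
    VoisinOn X H' n := fun a ha => h a fun i => hH (ha i)

/-- Voisin's property for combinations of places of degree zero. -/
lemma vp_on {E : Type u} [Field E] [Algebra k E] {p : ℕ} (h : VP k E p) (M : ℕ) (η : Fin M → E) (hη : η ≠ 0)
    (n : ℕ) (hn : p < n) : VoisinOn (proj k (van k η)) {b | ∃ a ∈ {a : RPl k E →₀ ℤ | a.sum (fun _ c => c) = 0},
      b = a.mapDomain (evP η hη)} n := by
  refine VoisinOn.mono (voisinOn_iff.mpr (h M η hη n hn)) ?_
  rintro b ⟨a, ha, rfl⟩
  change (a.mapDomain _).sum (fun _ c => c) = 0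
  rw [deg_mapDomain]
  exact ha

/-- The odd combinations for step A. -/
def Odd {F : Type u} [Field F] [Algebra k F] (ι : F ≃ₐ[k] F) : Set (RPl k F →₀ ℤ) :=
  {c | c.sum (fun _ c => c) = 0 ∧ c.mapDomain (fun w => w.comap ((ι : F ≃ₐ[k] F) : F →ₐ[k] F)) = - c}

lemma sub_mem_odd {F : Type u} [Field F] [Algebra k F] (ι : F ≃ₐ[k] F) (hι : ∀ z, ι (ι z) = z)
    (a : RPl k F →₀ ℤ) :
    a - a.mapDomain (fun w => w.comap ((ι : F ≃ₐ[k] F) : F →ₐ[k] F)) ∈ Odd ι := by
  classical
  refine ⟨?_, ?_⟩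
  · have h := deg_mapDomain (fun w : RPl k F => w.comap ((ι : F ≃ₐ[k] F) : F →ₐ[k] F)) a
    rw [Finsupp.sum_sub_index (fun _ _ _ => rfl), h, sub_self]
  · rw [Finsupp.mapDomain_sub, ← Finsupp.mapDomain_comp]
    have e : ((fun w : RPl k F => w.comap ((ι : F ≃ₐ[k] F) : F →ₐ[k] F)) ∘
        fun w : RPl k F => w.comap ((ι : F ≃ₐ[k] F) : F →ₐ[k] F)) = id := by
      funext w
      change (w.comap _).comap _ = w
      rw [RPl.comap_comap]
      have e1 : (((ι : F ≃ₐ[k] F) : F →ₐ[k] F)).comp ((ι : F ≃ₐ[k] F) : F →ₐ[k] F) = AlgHom.id k F := by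
        ext z
        exact hι z
      rw [e1]
      ext z
      rfl
    rw [e, Finsupp.mapDomain_id]
    abel

lemma adj_top {L : Type*} [Field L] [Algebra k L] (l x y : L)
    (hl : l ∈ IntermediateField.adjoin k {l, x, y}) (hx : x ∈ IntermediateField.adjoin k {l, x, y})
    (hy : y ∈ IntermediateField.adjoin k {l, x, y}) :
    IntermediateField.adjoin k {(⟨l, hl⟩ : IntermediateField.adjoin k {l, x, y}), ⟨x, hx⟩, ⟨y, hy⟩} = ⊤ := by
  apply IntermediateField.map_injective (IntermediateField.val (IntermediateField.adjoin k {l, x, y}))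
  rw [IntermediateField.adjoin_map, Set.image_insert_eq, Set.image_insert_eq, Set.image_singleton,
    ← AlgHom.fieldRange_eq_map, IntermediateField.fieldRange_val]
  rfl

theorem stepA_of {F : Type u} [Field F] [Algebra k F] {ι : F ≃ₐ[k] F} {P Q : k[X]} {Ω : Type u} [Field Ω]
    [Algebra k Ω] {G Γ : Type u} [Group G] [Fintype G] [Group Γ] [Fintype Γ] (A : A1G ι P Q Ω G Γ) {p : ℕ}
    (hE : EllVP k P Q p) (M : ℕ) (ξ : Fin M → F) (hξ : ξ ≠ 0) (n : ℕ)
    (hn : p < n) : VoisinOn (proj k (van k ξ)) {b | ∃ a ∈ Odd ι, b = a.mapDomain (evP ξ hξ)} n := by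
  classical
  -- the function field of the elliptic surface
  have hVP : VP k (IntermediateField.adjoin k {A.l, A.x, A.y}) p := by
    have hl : A.l ∈ IntermediateField.adjoin k {A.l, A.x, A.y} :=
      IntermediateField.subset_adjoin _ _ (by simp)
    have hx : A.x ∈ IntermediateField.adjoin k {A.l, A.x, A.y} :=
      IntermediateField.subset_adjoin _ _ (by simp)
    have hy : A.y ∈ IntermediateField.adjoin k {A.l, A.x, A.y} :=
      IntermediateField.subset_adjoin _ _ (by simp)
    refine hE (IntermediateField.adjoin k {A.l, A.x, A.y}) ⟨A.l, hl⟩ ⟨A.x, hx⟩ ⟨A.y, hy⟩ ?_ ?_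
      (adj_top A.l A.x A.y hl hx hy)
    · have h1 := A.ind
      have e : ![A.l, A.x] = (IntermediateField.val (IntermediateField.adjoin k {A.l, A.x, A.y})) ∘
          ![⟨A.l, hl⟩, ⟨A.x, hx⟩] := by
        funext i
        fin_cases i <;> rfl
      rw [e] at h1
      exact h1.of_comp _
    · have h1 := A.eqn
      have e : ∀ P : k[X], ((aeval (⟨A.l, hl⟩ : IntermediateField.adjoin k {A.l, A.x, A.y}) P :
          IntermediateField.adjoin k {A.l, A.x, A.y}) : Ω) = aeval A.l P := by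
        intro P
        have h2 := Polynomial.aeval_algHom_apply (IntermediateField.val (IntermediateField.adjoin k {A.l, A.x, A.y}))
          ⟨A.l, hl⟩ P
        exact h2.symm
      apply Subtype.ext
      simp only [SubmonoidClass.mk_pow, AddMemClass.coe_add, MulMemClass.coe_mul, e]
      exact h1
  choose L hL using fun v : RPl k F => exists_lift A.e v
  have : Nonempty Γ := ⟨1⟩
  refine voisin_fam (fun g : Γ => (((A.ρ' g : Ω ≃ₐ[k] Ω) : Ω →ₐ[k] Ω)).comp A.e)
    (IntermediateField.val (IntermediateField.adjoin k {A.l, A.x, A.y})) (Set.range A.ρ')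
    (fun z hz => ⟨⟨z, (A.fixE z).mp fun g => hz _ ⟨g, rfl⟩⟩, rfl⟩) ?_
    {a | a.sum (fun _ c => c) = 0} (vp_on hVP) ξ hξ hn _ ?_
  · rintro σ ⟨g, rfl⟩
    refine ⟨Equiv.mulLeft g, fun j x => ?_⟩
    change A.ρ' g (A.ρ' j (A.e x)) = A.ρ' (g * j) (A.e x)
    rw [map_mul]
    rfl
  · rintro b ⟨c, ⟨hc0, hcι⟩, rfl⟩
    refine ⟨Fintype.card G * (A.np + A.nm), Nat.mul_pos Fintype.card_pos A.hnp,
      ∑ h, c.mapDomain (fun v => (L v).comap ((A.ρ h : Ω ≃ₐ[k] Ω) : Ω →ₐ[k] Ω)), ?_, fun φ hφ => ?_⟩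
    · have h1 : ∀ {α : Type u} (d : α →₀ ℤ), d.sum (fun _ c => c) = Finsupp.linearCombination ℤ (fun _ => (1 : ℤ)) d := by
        intro α d
        rw [Finsupp.linearCombination_apply]
        simp
      change (Finsupp.mapDomain _ _).sum _ = 0
      rw [deg_mapDomain, h1, map_sum]
      refine Finset.sum_eq_zero fun h _ => ?_
      rw [← h1, deg_mapDomain]
      exact hc0
    · set u : RPl k F → k := fun v => φ (evP ξ hξ v) with hu
      obtain ⟨C, hC⟩ := A.main u ⟨M, ξ, hξ, φ, hφ, fun w => rfl⟩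
      rw [Finsupp.linearCombination_mapDomain, map_sum]
      have h1 : ∀ h : G, Finsupp.linearCombination ℤ (fun w : RPl k Ω => ∑ g : Γ, φ (evP ξ hξ
          (w.comap ((((A.ρ' g : Ω ≃ₐ[k] Ω) : Ω →ₐ[k] Ω)).comp A.e))))
          (c.mapDomain (fun v => (L v).comap ((A.ρ h : Ω ≃ₐ[k] Ω) : Ω →ₐ[k] Ω))) =
          Finsupp.linearCombination ℤ (fun v : RPl k F => ∑ g : Γ, u ((((L v).comap
            ((A.ρ h : Ω ≃ₐ[k] Ω) : Ω →ₐ[k] Ω)).comap ((A.ρ' g : Ω ≃ₐ[k] Ω) : Ω →ₐ[k] Ω)).comap A.e)) c := by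
        intro h
        rw [Finsupp.linearCombination_mapDomain]
        rfl
      rw [Finset.sum_congr rfl fun h _ => h1 h]
      have h2 : ∑ h : G, Finsupp.linearCombination ℤ (fun v : RPl k F => ∑ g : Γ, u ((((L v).comap
            ((A.ρ h : Ω ≃ₐ[k] Ω) : Ω →ₐ[k] Ω)).comap ((A.ρ' g : Ω ≃ₐ[k] Ω) : Ω →ₐ[k] Ω)).comap A.e)) c =
          Finsupp.linearCombination ℤ (fun v : RPl k F => (Fintype.card G : k) * ((A.np : k) * u v -
            (A.nm : k) * u (v.comap ((ι : F ≃ₐ[k] F) : F →ₐ[k] F))) + C) c := by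
        simp only [Finsupp.linearCombination_apply, Finsupp.sum]
        rw [Finset.sum_comm]
        refine Finset.sum_congr rfl fun v _ => ?_
        rw [← Finset.smul_sum, hC (L v), hL v]
      rw [h2]
      have h3 : Finsupp.linearCombination ℤ (fun v : RPl k F => (Fintype.card G : k) * ((A.np : k) * u v -
            (A.nm : k) * u (v.comap ((ι : F ≃ₐ[k] F) : F →ₐ[k] F))) + C) c =
          (Fintype.card G : k) * ((A.np : k) * Finsupp.linearCombination ℤ u c -
            (A.nm : k) * Finsupp.linearCombination ℤ (fun v : RPl k F => u (v.comap ((ι : F ≃ₐ[k] F) : F →ₐ[k] F))) c) +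
            ((c.sum (fun _ c => c) : ℤ) : k) * C := by
        simp only [Finsupp.linearCombination_apply, Finsupp.sum, Finset.mul_sum, Int.cast_sum, Finset.sum_mul,
          ← Finset.sum_sub_distrib, ← Finset.sum_add_distrib, zsmul_eq_mul]
        refine Finset.sum_congr rfl fun v _ => ?_
        ring
      have h4 : Finsupp.linearCombination ℤ (fun v : RPl k F => u (v.comap ((ι : F ≃ₐ[k] F) : F →ₐ[k] F))) c =
          - Finsupp.linearCombination ℤ u c := by
        have h5 := congrArg (Finsupp.linearCombination ℤ u) hcι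
        rw [Finsupp.linearCombination_mapDomain, map_neg] at h5
        exact h5
      rw [h3, h4, hc0]
      change _ * Finsupp.linearCombination ℤ u c = _
      push_cast
      ring

end Pool.Agent.Helper15.KP
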