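import Mathlib
import Pool.Agent.Helper9.NS
import Pool.Agent.Helper15.KP.Vp0
import Pool.Agent.Helper70.KX.Ell
import Pool.Agent.Helper70.KX.Dbl

/-!
# KP: the double covers of the quadric cone, elliptic fibration over the `s`-line
-/

set_option linter.unusedSectionVars false

namespace Pool.Agent.Helper15.KP

open VC VF Function Polynomial Pool.Agent.Helper21.TO Pool.Agent.Helper15.GT Pool.Agent.Helper70.KX

universe u

variable {k : Type u} [Field k] [IsAlgClosed k] [CharZero k]

/-- A rational elliptic surface, or a product. -/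
theorem rat_ell {F : Type u} [Field F] [Algebra k F] (l x y : F) (A B : k[X]) (hlx : AlgebraicIndependent k ![l, x])
    (he : y ^ 2 = x ^ 3 + aeval l A * x + aeval l B) (hgen : IntermediateField.adjoin k {l, x, y} = ⊤)
    (hA : A.natDegree ≤ 4) (hB : B.natDegree ≤ 6) (hd : 4 * A ^ 3 + 27 * B ^ 2 ≠ 0) (hq : Reg k F)
    {u : RPl k F → k} (hu : HF k F u) (w w' : RPl k F) : u w = u w' := by
  classical
  have h0 : A ≠ 0 ∨ B ≠ 0 := by
    by_contra hcon
    push Not at hcon
    apply hd
    rw [hcon.1, hcon.2]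
    ring
  obtain ⟨U, A', B', hU, hA', hB', hmin⟩ := exists_red _ A B h0 rfl
  have hle : ∀ (p : k[X]) (m : ℕ), p.natDegree ≤ (p * U ^ m).natDegree := by
    intro p m
    by_cases hp : p = 0
    · rw [hp, zero_mul]
    · rw [natDegree_mul hp (pow_ne_zero _ hU)]
      omega
  have hA8 : A'.natDegree ≤ 4 := (hle A' 4).trans (by rw [← hA']; exact hA)
  have hB12 : B'.natDegree ≤ 6 := (hle B' 6).trans (by rw [← hB']; exact hB)
  have hl : Transcendental k l := ind_fst hlx
  have hv : aeval l U ≠ 0 := aeval_ne hl hU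
  obtain ⟨v, hv'⟩ : ∃ v, v = aeval l U := ⟨_, rfl⟩
  rw [← hv'] at hv
  have hvl : v ∈ IntermediateField.adjoin k {l} := by
    rw [hv']
    exact (IntermediateField.algebra_adjoin_le_adjoin k {l}) (aeval_mem_adjoin_singleton k l)
  -- the minimal equation
  have he' : (y / v ^ 3) ^ 2 = (x / v ^ 2) ^ 3 + aeval l A' * (x / v ^ 2) + aeval l B' := by
    have h1 : y ^ 2 = x ^ 3 + v ^ 4 * aeval l A' * x + v ^ 6 * aeval l B' := by
      rw [he, hA', hB', hv']
      simp only [map_mul, map_pow]
      ring
    field_simp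
    linear_combination h1
  have hxv : AlgebraicIndependent k ![l, x / v ^ 2] := by
    refine ind_of hl ?_
    intro h
    apply ind_snd hlx
    have h2 : x = x / v ^ 2 * v ^ 2 := by field_simp
    rw [h2]
    refine h.mul (IsAlgebraic.pow ?_ 2)
    exact isAlgebraic_algebraMap (⟨v, hvl⟩ : IntermediateField.adjoin k {l})
  have hgen' : IntermediateField.adjoin k {l, x / v ^ 2, y / v ^ 3} = ⊤ := by
    rw [eq_top_iff, ← hgen, IntermediateField.adjoin_le_iff]
    have hl1 : l ∈ IntermediateField.adjoin k {l, x / v ^ 2, y / v ^ 3} :=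
      IntermediateField.subset_adjoin k _ (Or.inl rfl)
    have hv2 : v ∈ IntermediateField.adjoin k {l, x / v ^ 2, y / v ^ 3} := by
      have h1 : IntermediateField.adjoin k {l} ≤ IntermediateField.adjoin k {l, x / v ^ 2, y / v ^ 3} := by
        rw [IntermediateField.adjoin_simple_le_iff]
        exact hl1
      exact h1 hvl
    rintro z (hz | hz | hz)
    · rw [hz]
      exact hl1
    · rw [hz]
      have h1 : x / v ^ 2 ∈ IntermediateField.adjoin k {l, x / v ^ 2, y / v ^ 3} :=
        IntermediateField.subset_adjoin k _ (Or.inr (Or.inl rfl))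
      have h2 := mul_mem h1 (pow_mem hv2 2)
      rwa [div_mul_cancel₀ _ (pow_ne_zero 2 hv)] at h2
    · rw [Set.mem_singleton_iff.mp hz]
      have h1 : y / v ^ 3 ∈ IntermediateField.adjoin k {l, x / v ^ 2, y / v ^ 3} :=
        IntermediateField.subset_adjoin k _ (Or.inr (Or.inr rfl))
      have h2 := mul_mem h1 (pow_mem hv2 3)
      rwa [div_mul_cancel₀ _ (pow_ne_zero 3 hv)] at h2
  by_cases hcst : A'.natDegree = 0 ∧ B'.natDegree = 0
  · obtain ⟨α, hα⟩ := natDegree_eq_zero.mp hcst.1
    obtain ⟨β, hβ⟩ := natDegree_eq_zero.mp hcst.2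
    refine dbl_cyl (x / v ^ 2) l (y / v ^ 3) (X ^ 3 + C α * X + C β) ?_ ?_ ?_ hq hu w w'
    · have h1 := (AlgebraicIndependent.comp hxv ![1, 0] (by decide))
      have h2 : ![l, x / v ^ 2] ∘ ![1, 0] = ![x / v ^ 2, l] := by
        funext i
        fin_cases i <;> rfl
      rw [h2] at h1
      exact h1
    · rw [he', ← hα, ← hβ]
      simp only [map_add, map_mul, map_pow, aeval_C, aeval_X]
    · have h1 : ({x / v ^ 2, l, y / v ^ 3} : Set F) = {l, x / v ^ 2, y / v ^ 3} := Set.insert_comm _ _ _
      rw [h1]
      exact hgen'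
  have hd' : 4 * A' ^ 3 + 27 * B' ^ 2 ≠ 0 := by
    intro h
    apply hd
    rw [hA', hB']
    linear_combination U ^ 12 * h
  refine HF.const_of_vp (vp_min 1 le_rfl A' B' (by omega) (by omega) ?_ hmin hd' l (x / v ^ 2) (y / v ^ 3) hxv he'
    hgen') hu w w'
  omega

/-- DBL2: on the double cover of the quadric cone branched along the vertex, the curve `t = 0` and a curve of
degree four all harmonic functions are constant, if it is regular. -/
theorem dbl2 {F : Type u} [Field F] [Algebra k F] (s t v : F) (f0 : k) (f2 f4 : k[X]) (h2 : f2.natDegree ≤ 2)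
    (h4 : f4.natDegree ≤ 4) (hst : AlgebraicIndependent k ![s, t])
    (hv : v ^ 2 = t * (algebraMap k F f0 * t ^ 2 + aeval s f2 * t + aeval s f4))
    (hgen : IntermediateField.adjoin k {s, t, v} = ⊤) (hq : Reg k F) {u : RPl k F → k} (hu : HF k F u)
    (w w' : RPl k F) : u w = u w' := by
  have hcF : CharZero F := charZero_of_injective_algebraMap (algebraMap k F).injective
  have hs : Transcendental k s := ind_fst hst
  have ht : Transcendental (IntermediateField.adjoin k {s}) t := ind_snd hst
  have ht0 : t ≠ 0 := fun h => ht (by rw [h]; exact isAlgebraic_zero)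
  have hs0 : s ∈ IntermediateField.adjoin k {s} := IntermediateField.mem_adjoin_simple_self k s
  -- rational surfaces
  have hrat : ∀ m : F, t ∈ IntermediateField.adjoin k {s, m} → v ∈ IntermediateField.adjoin k {s, m} → u w = u w' := by
    intro m h1 h2
    have htop : IntermediateField.adjoin k {s, m} = ⊤ := by
      rw [eq_top_iff, ← hgen, IntermediateField.adjoin_le_iff]
      rintro y (hy | hy | hy)
      · rw [hy]
        exact IntermediateField.subset_adjoin k _ (Or.inl rfl)
      · rw [hy]
        exact h1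
      · rw [Set.mem_singleton_iff.mp hy]
        exact h2
    exact HF.const_of_rat s m (ind_of_gen hst (adjoin_pair_isAlgebraic htop)) htop hu w w'
  obtain ⟨m, hm⟩ : ∃ m, m = v / t := ⟨_, rfl⟩
  have hvm : v = m * t := by rw [hm, div_mul_cancel₀ _ ht0]
  have hm2 : m ^ 2 * t = algebraMap k F f0 * t ^ 2 + aeval s f2 * t + aeval s f4 := by
    apply mul_right_cancel₀ ht0
    rw [hvm] at hv
    linear_combination hv
  have hsm : s ∈ IntermediateField.adjoin k {s, m} := IntermediateField.subset_adjoin k _ (Or.inl rfl)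
  have hmm : m ∈ IntermediateField.adjoin k {s, m} := IntermediateField.subset_adjoin k _ (Or.inr rfl)
  by_cases hf4 : f4 = 0
  · -- m² = f0 t + f2
    have h1 : m ^ 2 = algebraMap k F f0 * t + aeval s f2 := by
      apply mul_right_cancel₀ ht0
      rw [hm2, hf4, map_zero]
      ring
    by_cases hf0 : f0 = 0
    · refine dbl_cyl s t m f2 hst (by rw [h1, hf0, map_zero, zero_mul, zero_add]) ?_ hq hu w w'
      rw [eq_top_iff, ← hgen, IntermediateField.adjoin_le_iff]
      have h5 : t ∈ IntermediateField.adjoin k {s, t, m} := IntermediateField.subset_adjoin k _ (Or.inr (Or.inl rfl))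
      have h6 : m ∈ IntermediateField.adjoin k {s, t, m} := IntermediateField.subset_adjoin k _ (Or.inr (Or.inr rfl))
      rintro y (hy | hy | hy)
      · rw [hy]
        exact IntermediateField.subset_adjoin k _ (Or.inl rfl)
      · rw [hy]
        exact h5
      · rw [Set.mem_singleton_iff.mp hy, hvm]
        exact mul_mem h6 h5
    · have hf0' : algebraMap k F f0 ≠ 0 := (_root_.map_ne_zero _).mpr hf0
      have h5 : t = (m ^ 2 - aeval s f2) / algebraMap k F f0 := by
        rw [h1]
        field_simp
        ring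
      have h6 : t ∈ IntermediateField.adjoin k {s, m} := by
        rw [h5]
        exact div_mem (sub_mem (pow_mem hmm 2) (aeval_mem hsm f2)) ((IntermediateField.adjoin k {s, m}).algebraMap_mem f0)
      exact hrat m h6 (by rw [hvm]; exact mul_mem hmm h6)
  by_cases hf0 : f0 = 0
  · -- (m² - f2) t = f4
    have h1 : (m ^ 2 - aeval s f2) * t = aeval s f4 := by
      rw [hf0, map_zero] at hm2
      linear_combination hm2
    have h3 : m ^ 2 - aeval s f2 ≠ 0 := by
      intro h
      rw [h, zero_mul] at h1
      exact aeval_ne hs hf4 h1.symm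
    have h5 : t = aeval s f4 / (m ^ 2 - aeval s f2) := by
      rw [eq_div_iff h3, mul_comm]
      exact h1
    have h6 : t ∈ IntermediateField.adjoin k {s, m} := by
      rw [h5]
      exact div_mem (aeval_mem hsm f4) (sub_mem (pow_mem hmm 2) (aeval_mem hsm f2))
    exact hrat m h6 (by rw [hvm]; exact mul_mem hmm h6)
  have hf0' : algebraMap k F f0 ≠ 0 := (_root_.map_ne_zero _).mpr hf0
  by_cases hdisc : f2 ^ 2 = 4 * C f0 * f4
  · -- a square
    have h1 : (aeval s f2) ^ 2 = 4 * algebraMap k F f0 * aeval s f4 := by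
      have h := congrArg (aeval s) hdisc
      simpa only [map_pow, map_mul, map_ofNat, aeval_C] using h
    have h3 : algebraMap k F f0 * t + aeval s f2 / 2 ≠ 0 := by
      intro h
      apply ht
      have h4 : t = - (aeval s f2 / 2) / algebraMap k F f0 := by
        rw [eq_div_iff hf0']
        linear_combination h
      rw [h4]
      have h5 : - (aeval s f2 / 2) / algebraMap k F f0 ∈ IntermediateField.adjoin k {s} := by
        refine div_mem (neg_mem (div_mem (aeval_mem hs0 f2) ?_)) ((IntermediateField.adjoin k {s}).algebraMap_mem f0)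
        exact_mod_cast (IntermediateField.adjoin k {s}).natCast_mem 2
      exact isAlgebraic_algebraMap (⟨_, h5⟩ : IntermediateField.adjoin k {s})
    obtain ⟨n, hn⟩ : ∃ n, n = v / (algebraMap k F f0 * t + aeval s f2 / 2) := ⟨_, rfl⟩
    have hvn : v = n * (algebraMap k F f0 * t + aeval s f2 / 2) := by rw [hn, div_mul_cancel₀ _ h3]
    have h4 : t = algebraMap k F f0 * n ^ 2 := by
      apply mul_right_cancel₀ (pow_ne_zero 2 h3)
      have h5 : algebraMap k F f0 * v ^ 2 = t * (algebraMap k F f0 * t + aeval s f2 / 2) ^ 2 := by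
        rw [hv]
        linear_combination (-t / 4) * h1
      rw [← h5, hvn]
      ring
    have hnn : n ∈ IntermediateField.adjoin k {s, n} := IntermediateField.subset_adjoin k _ (Or.inr rfl)
    have hsn : s ∈ IntermediateField.adjoin k {s, n} := IntermediateField.subset_adjoin k _ (Or.inl rfl)
    have h6 : t ∈ IntermediateField.adjoin k {s, n} := by
      rw [h4]
      exact mul_mem ((IntermediateField.adjoin k {s, n}).algebraMap_mem f0) (pow_mem hnn 2)
    refine hrat n h6 ?_
    rw [hvn]
    refine mul_mem hnn (add_mem (mul_mem ((IntermediateField.adjoin k {s, n}).algebraMap_mem f0) h6)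
      (div_mem (aeval_mem hsn f2) ?_))
    exact_mod_cast (IntermediateField.adjoin k {s, n}).natCast_mem 2
  -- the elliptic surface
  have e3 : (3 : F) ≠ 0 := by norm_num
  obtain ⟨x, hx⟩ : ∃ x, x = algebraMap k F f0 * t + aeval s f2 / 3 := ⟨_, rfl⟩
  have htx : t = (x - aeval s f2 / 3) / algebraMap k F f0 := by
    rw [hx]
    field_simp
    ring
  refine rat_ell s x (algebraMap k F f0 * v) (C f0 * f4 - C (1 / 3) * f2 ^ 2)
    (C (2 / 27) * f2 ^ 3 - C (f0 / 3) * f4 * f2) ?_ ?_ ?_ ?_ ?_ ?_ hq hu w w'
  · refine ind_of hs ?_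
    intro h
    apply ht
    rw [htx]
    have h5 : aeval s f2 / 3 ∈ IntermediateField.adjoin k {s} := by
      refine div_mem (aeval_mem hs0 f2) ?_
      exact_mod_cast (IntermediateField.adjoin k {s}).natCast_mem 3
    have h6 : IsAlgebraic (IntermediateField.adjoin k {s}) (aeval s f2 / 3) :=
      isAlgebraic_algebraMap (⟨_, h5⟩ : IntermediateField.adjoin k {s})
    have h7 : IsAlgebraic (IntermediateField.adjoin k {s}) (algebraMap k F f0)⁻¹ := by
      have h8 : (algebraMap k F f0)⁻¹ ∈ IntermediateField.adjoin k {s} :=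
        inv_mem ((IntermediateField.adjoin k {s}).algebraMap_mem f0)
      exact isAlgebraic_algebraMap (⟨_, h8⟩ : IntermediateField.adjoin k {s})
    rw [div_eq_mul_inv]
    exact (h.sub h6).mul h7
  · simp only [map_sub, map_mul, map_pow, aeval_C, map_div₀, map_one, map_ofNat]
    rw [mul_pow, hv, hx]
    field_simp
    ring
  · rw [eq_top_iff, ← hgen, IntermediateField.adjoin_le_iff]
    have h5 : s ∈ IntermediateField.adjoin k {s, x, algebraMap k F f0 * v} :=
      IntermediateField.subset_adjoin k _ (Or.inl rfl)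
    have h6 : x ∈ IntermediateField.adjoin k {s, x, algebraMap k F f0 * v} :=
      IntermediateField.subset_adjoin k _ (Or.inr (Or.inl rfl))
    have h7 : algebraMap k F f0 * v ∈ IntermediateField.adjoin k {s, x, algebraMap k F f0 * v} :=
      IntermediateField.subset_adjoin k _ (Or.inr (Or.inr rfl))
    have h8 : algebraMap k F f0 ∈ IntermediateField.adjoin k {s, x, algebraMap k F f0 * v} :=
      (IntermediateField.adjoin k {s, x, algebraMap k F f0 * v}).algebraMap_mem f0
    rintro y (hy | hy | hy)
    · rw [hy]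
      exact h5
    · rw [hy, htx]
      refine div_mem (sub_mem h6 (div_mem (aeval_mem h5 f2) ?_)) h8
      exact_mod_cast (IntermediateField.adjoin k {s, x, algebraMap k F f0 * v}).natCast_mem 3
    · rw [Set.mem_singleton_iff.mp hy]
      have h9 := div_mem h7 h8
      rwa [mul_div_cancel_left₀ _ hf0'] at h9
  · refine (natDegree_sub_le _ _).trans (max_le ?_ ?_)
    · exact (natDegree_C_mul_le _ _).trans h4
    · refine (natDegree_C_mul_le _ _).trans ((natDegree_pow_le).trans ?_)
      omega
  · refine (natDegree_sub_le _ _).trans (max_le ?_ ?_)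
    · refine (natDegree_C_mul_le _ _).trans ((natDegree_pow_le).trans ?_)
      omega
    · rw [mul_assoc]
      refine (natDegree_C_mul_le _ _).trans ((natDegree_mul_le).trans ?_)
      omega
  · intro h
    have h5 : (C f0 * f4) ^ 2 * (4 * C f0 * f4 - f2 ^ 2) = 0 := by
      have e1 : (C (1 / 3 : k) : k[X]) * 3 = 1 := by
        rw [← C_1, ← map_ofNat (C : k →+* k[X]) 3, ← C_mul]
        norm_num
      have e2 : (C (2 / 27 : k) : k[X]) = 2 * C (1 / 3 : k) ^ 3 := by
        rw [← map_ofNat (C : k →+* k[X]) 2, ← C_pow, ← C_mul]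
        norm_num
      have e4 : (C (f0 / 3 : k) : k[X]) = C f0 * C (1 / 3 : k) := by
        rw [← C_mul]
        congr 1
        ring
      rw [e2, e4] at h
      obtain ⟨q, hq⟩ : ∃ q, q = (C (1 / 3 : k) : k[X]) := ⟨_, rfl⟩
      rw [← hq] at h e1
      obtain ⟨g, hg⟩ : ∃ g, f2 = 3 * g := ⟨q * f2, by linear_combination (-f2) * e1⟩
      have t1 : q * f2 ^ 2 = 3 * g ^ 2 := by
        rw [hg]
        linear_combination (3 * g ^ 2) * e1
      have t2 : 2 * q ^ 3 * f2 ^ 3 = 2 * g ^ 3 := by
        rw [hg]
        linear_combination (2 * g ^ 3 * ((q * 3) ^ 2 + q * 3 + 1)) * e1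
      have t3 : C f0 * q * f4 * f2 = C f0 * f4 * g := by
        rw [hg]
        linear_combination (C f0 * f4 * g) * e1
      rw [t1, t2, t3] at h
      rw [hg]
      linear_combination h
    rcases mul_eq_zero.mp h5 with h6 | h6
    · rcases mul_eq_zero.mp ((pow_eq_zero_iff two_ne_zero).mp h6) with h7 | h7
      · exact hf0 (C_eq_zero.mp h7)
      · exact hf4 h7
    · exact hdisc (sub_eq_zero.mp h6).symm

end Pool.Agent.Helper15.KP
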