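import Mathlib
import Pool.Agent.Helper9.NS
import Pool.Agent.Helper15.KP.StepA
import Pool.Agent.Helper15.GT.ExtQ

/-!
# KP: step B, quartic extensions of the rational field
-/

set_option linter.unusedSectionVars false

namespace Pool.Agent.Helper15.KP

open VC VF Function Polynomial Pool.Agent.Helper21.TO Pool.Agent.Helper15.GT

universe u

variable {k : Type u} [Field k] [IsAlgClosed k] [CharZero k]

lemma sum_orbit {G : Type*} [Group G] [Fintype G] (act : G →* Equiv.Perm (Fin 4))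
    (trans : ∀ i j, ∃ g, act g i = j) (f : Fin 4 → k) :
    (Fintype.card G : k) * ∑ i, f i = 4 * ∑ g, f (act g 0) := by
  have h1 : ∀ i, ∑ g, f (act g i) = ∑ g, f (act g 0) := by
    intro i
    obtain ⟨γ, hγ⟩ := trans i 0
    have h2 := Equiv.sum_comp (Equiv.mulRight γ⁻¹) (fun g => f (act g i))
    have h3 := Equiv.sum_comp (Equiv.mulRight γ) (fun g => f (act g i))
    rw [← Equiv.sum_comp (Equiv.mulRight γ⁻¹) (fun g => f (act g i))]
    have h5 : act γ⁻¹ 0 = i := by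
      rw [map_inv, ← hγ, Equiv.Perm.inv_def, Equiv.symm_apply_apply]
    rw [← Equiv.sum_comp (Equiv.mulRight γ) (fun g => f (act ((Equiv.mulRight γ⁻¹) g) i))]
    have h6 := Equiv.sum_comp (Equiv.mulRight γ) (fun g => f (act g 0))
    obtain ⟨δ, hδ⟩ := trans 0 i
    rw [← Equiv.sum_comp (Equiv.mulRight δ) (fun g => f (act g 0))]
    refine Finset.sum_congr rfl fun g _ => ?_
    simp only [Equiv.coe_mulRight, mul_inv_cancel_right, map_mul, Equiv.Perm.mul_apply, hδ]
  have h2 : ∑ i, ∑ g, f (act g i) = ∑ i : Fin 4, ∑ g, f (act g 0) := Finset.sum_congr rfl fun i _ => h1 i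
  rw [Finset.sum_comm] at h2
  have h3 : ∑ g, ∑ i, f (act g i) = ∑ _g : G, ∑ i, f i :=
    Finset.sum_congr rfl fun g _ => Equiv.sum_comp (act g) f
  rw [h3] at h2
  simp only [Finset.sum_const, Finset.card_univ, nsmul_eq_mul, Fintype.card_fin] at h2
  rw [h2]
  norm_num

lemma lin_sub_fn {α : Type*} (f g : α → k) (c : α →₀ ℤ) : Finsupp.linearCombination ℤ f c -
    Finsupp.linearCombination ℤ g c = Finsupp.linearCombination ℤ (fun v => f v - g v) c := by
  simp only [Finsupp.linearCombination_apply, Finsupp.sum, ← Finset.sum_sub_distrib, ← smul_sub]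

section

variable {F N F6 G : Type u} [Field F] [Algebra k F] [Field N] [Algebra k N] [Field F6] [Algebra k F6]
  [Group G] [Fintype G] {ι : F6 ≃ₐ[k] F6}

lemma QG.comap_e (D : QG k F N F6 G ι) (g : G) (i : Fin 4) (w : RPl k N) :
    (w.comap ((D.ρ g : N ≃ₐ[k] N) : N →ₐ[k] N)).comap (D.e i) = w.comap (D.e (D.act g i)) := by
  rw [RPl.comap_comap]
  congr 1
  ext x
  exact D.hact g i x

/-- The sum over the four embeddings is constant. -/
lemma QG.sum_const (D : QG k F N F6 G ι)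
    (hrat : ∀ u : RPl k (IntermediateField.adjoin k {D.s, D.t}) → k, HF k _ u → ∀ w w', u w = u w')
    {u : RPl k F → k} (hu : HF k F u) : ∃ S : k, ∀ w : RPl k N, ∑ i, u (w.comap (D.e i)) = S := by
  classical
  have h0 : HF k N (fun w => u (w.comap (D.e 0))) := HF.comap (D.e 0) hu
  obtain ⟨u', hu', h1⟩ := HF.trace D.ρ (IntermediateField.val (IntermediateField.adjoin k {D.s, D.t}))
    (fun z hz => ⟨⟨z, (D.base z).mp hz⟩, rfl⟩) h0
  have hG : (Fintype.card G : k) ≠ 0 := Nat.cast_ne_zero.mpr Fintype.card_ne_zero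
  have h2 : ∀ w : RPl k N, (Fintype.card G : k) * ∑ i, u (w.comap (D.e i)) = 4 * u' (w.comap
      (IntermediateField.val (IntermediateField.adjoin k {D.s, D.t}))) := by
    intro w
    rw [h1 w, sum_orbit D.act D.trans (fun i => u (w.comap (D.e i)))]
    congr 1
    refine Finset.sum_congr rfl fun g _ => ?_
    rw [D.comap_e]
  by_cases hne : Nonempty (RPl k N)
  · obtain ⟨w₀⟩ := hne
    refine ⟨∑ i, u (w₀.comap (D.e i)), fun w => ?_⟩
    apply mul_left_cancel₀ hG
    rw [h2 w, h2 w₀, hrat u' hu' _ (w₀.comap _)]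
  · exact ⟨0, fun w => (hne ⟨w⟩).elim⟩

/-- The pair `0, j` is conjugate to the pair `0, 1`. -/
def QG.Cj (D : QG k F N F6 G ι) (j : Fin 4) : Prop :=
  j ≠ 0 ∧ ∃ g, (D.act g 0 = 0 ∧ D.act g 1 = j) ∨ (D.act g 0 = j ∧ D.act g 1 = 0)

open Classical in
/-- The conjugating element. -/
noncomputable def QG.gj (D : QG k F N F6 G ι) (j : Fin 4) : G :=
  if h : D.Cj j then h.2.choose else 1

open Classical in
lemma QG.main (D : QG k F N F6 G ι)
    (hrat : ∀ u : RPl k (IntermediateField.adjoin k {D.s, D.t}) → k, HF k _ u → ∀ w w', u w = u w')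
    {u : RPl k F → k} (hu : HF k F u) : ∃ S : k, ∀ w : RPl k N, 4 * u (w.comap (D.e 0)) =
      ∑ j, (if D.Cj j then
        ((u ((w.comap ((D.ρ (D.gj j) : N ≃ₐ[k] N) : N →ₐ[k] N)).comap (D.e 0)) +
          u ((w.comap ((D.ρ (D.gj j) : N ≃ₐ[k] N) : N →ₐ[k] N)).comap (D.e 1))) -
        (u (((w.comap ((D.ρ (D.gj j) : N ≃ₐ[k] N) : N →ₐ[k] N)).comap
            ((D.ρ D.gι : N ≃ₐ[k] N) : N →ₐ[k] N)).comap (D.e 0)) +
          u (((w.comap ((D.ρ (D.gj j) : N ≃ₐ[k] N) : N →ₐ[k] N)).comap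
            ((D.ρ D.gι : N ≃ₐ[k] N) : N →ₐ[k] N)).comap (D.e 1)))) else 0) + S := by
  obtain ⟨S, hS⟩ := D.sum_const hrat hu
  have hodd : ∀ w : RPl k N, u (w.comap (D.e 0)) + u (w.comap (D.e 1)) + (u ((w.comap
      ((D.ρ D.gι : N ≃ₐ[k] N) : N →ₐ[k] N)).comap (D.e 0)) + u ((w.comap
      ((D.ρ D.gι : N ≃ₐ[k] N) : N →ₐ[k] N)).comap (D.e 1))) = S := by
    intro w
    rw [D.comap_e, D.comap_e, ← hS w, Fin.sum_univ_four]
    rcases D.hgι with ⟨h0, h1⟩ | ⟨h0, h1⟩
    · rw [h0, h1]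
      ring
    · rw [h0, h1]
      ring
  have hj : ∀ j : Fin 4, j ≠ 0 → ∃ C : k, ∀ w : RPl k N, 2 * (u (w.comap (D.e 0)) + u (w.comap (D.e j))) =
      (if D.Cj j then
        ((u ((w.comap ((D.ρ (D.gj j) : N ≃ₐ[k] N) : N →ₐ[k] N)).comap (D.e 0)) +
          u ((w.comap ((D.ρ (D.gj j) : N ≃ₐ[k] N) : N →ₐ[k] N)).comap (D.e 1))) -
        (u (((w.comap ((D.ρ (D.gj j) : N ≃ₐ[k] N) : N →ₐ[k] N)).comap
            ((D.ρ D.gι : N ≃ₐ[k] N) : N →ₐ[k] N)).comap (D.e 0)) +
          u (((w.comap ((D.ρ (D.gj j) : N ≃ₐ[k] N) : N →ₐ[k] N)).comap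
            ((D.ρ D.gι : N ≃ₐ[k] N) : N →ₐ[k] N)).comap (D.e 1)))) else 0) + C := by
    intro j hj0
    by_cases hc : D.Cj j
    · refine ⟨S, fun w => ?_⟩
      rw [if_pos hc]
      have h1 := hodd (w.comap ((D.ρ (D.gj j) : N ≃ₐ[k] N) : N →ₐ[k] N))
      have h2 : u ((w.comap ((D.ρ (D.gj j) : N ≃ₐ[k] N) : N →ₐ[k] N)).comap (D.e 0)) +
          u ((w.comap ((D.ρ (D.gj j) : N ≃ₐ[k] N) : N →ₐ[k] N)).comap (D.e 1)) =
          u (w.comap (D.e 0)) + u (w.comap (D.e j)) := by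
        rw [D.comap_e, D.comap_e]
        have h3 : (D.act (D.gj j) 0 = 0 ∧ D.act (D.gj j) 1 = j) ∨ (D.act (D.gj j) 0 = j ∧ D.act (D.gj j) 1 = 0) := by
          rw [QG.gj, dif_pos hc]
          exact hc.2.choose_spec
        rcases h3 with ⟨h3, h4⟩ | ⟨h3, h4⟩
        · rw [h3, h4]
        · rw [h3, h4, add_comm]
      linear_combination h1 - 2 * h2
    · rcases D.pair j hj0 with h | h
      · exact (hc ⟨hj0, h⟩).elim
      · obtain ⟨C, hC⟩ := h u hu
        refine ⟨2 * C, fun w => ?_⟩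
        rw [if_neg hc, hC w, zero_add]
  obtain ⟨C1, h1⟩ := hj 1 (by decide)
  obtain ⟨C2, h2⟩ := hj 2 (by decide)
  obtain ⟨C3, h3⟩ := hj 3 (by decide)
  refine ⟨C1 + C2 + C3 - 2 * S, fun w => ?_⟩
  rw [Fin.sum_univ_four]
  have h0 : ¬ D.Cj 0 := fun h => h.1 rfl
  rw [if_neg h0]
  have hs := hS w
  rw [Fin.sum_univ_four] at hs
  linear_combination h1 w + h2 w + h3 w - 2 * hs

theorem stepB_of (D : QG k F N F6 G ι) {p : ℕ}
    (hA : ∀ (M : ℕ) (η : Fin M → F6) (hη : η ≠ 0) (n : ℕ), p < n →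
      VoisinOn (proj k (van k η)) {b | ∃ a ∈ Odd ι, b = a.mapDomain (evP η hη)} n)
    (hrat : ∀ u : RPl k (IntermediateField.adjoin k {D.s, D.t}) → k, HF k _ u → ∀ w w', u w = u w') :
    VP k F p := by
  classical
  intro M ξ hξ n hn
  rw [← voisinOn_iff]
  choose L hL using fun v : RPl k F => exists_lift (D.e 0) v
  choose pt hpt using exists_rpl_evP (k := k) ξ hξ
  let f : ULift.{u} (Fin 2) → F →ₐ[k] N := fun i => D.e (if i.down = 0 then 0 else 1)
  have hf : ∀ w : RPl k N, ∀ φ : RPl k F → k, ∑ j, φ (w.comap (f j)) = φ (w.comap (D.e 0)) + φ (w.comap (D.e 1)) := by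
    intro w φ
    rw [← Equiv.sum_comp Equiv.ulift.symm, Fin.sum_univ_two]
    rfl
  refine voisin_fam f D.e6 {σ | ∃ g, ((D.act g 0 = 0 ∧ D.act g 1 = 1) ∨ (D.act g 0 = 1 ∧ D.act g 1 = 0)) ∧
    σ = D.ρ g} (fun z hz => (D.fix6 z).mp fun g hg => hz _ ⟨g, hg, rfl⟩) ?_ (Odd ι) hA ξ hξ hn _ ?_
  · rintro σ ⟨g, hg, rfl⟩
    rcases hg with ⟨h0, h1⟩ | ⟨h0, h1⟩
    · refine ⟨Equiv.refl _, fun j x => ?_⟩
      rcases j with ⟨j⟩
      fin_cases j
      · exact (D.hact g 0 x).trans (by rw [h0]; rfl)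
      · exact (D.hact g 1 x).trans (by rw [h1]; rfl)
    · refine ⟨Equiv.ulift.trans ((Equiv.swap 0 1).trans Equiv.ulift.symm), fun j x => ?_⟩
      rcases j with ⟨j⟩
      fin_cases j
      · exact (D.hact g 0 x).trans (by rw [h0]; rfl)
      · exact (D.hact g 1 x).trans (by rw [h1]; rfl)
  · intro b hb
    set c : RPl k F →₀ ℤ := b.mapDomain pt with hc
    have hbc : b = c.mapDomain (evP ξ hξ) := by
      rw [hc, ← Finsupp.mapDomain_comp]
      have e : evP ξ hξ ∘ pt = id := by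
        funext s
        exact hpt s
      rw [e, Finsupp.mapDomain_id]
    have hc0 : c.sum (fun _ c => c) = 0 := by
      rw [hc, deg_mapDomain]
      exact hb
    clear_value c
    set a₀ : RPl k N →₀ ℤ := ∑ j, if D.Cj j then c.mapDomain (fun v => (L v).comap
      ((D.ρ (D.gj j) : N ≃ₐ[k] N) : N →ₐ[k] N)) else 0 with ha₀
    refine ⟨4, by norm_num, a₀ - a₀.mapDomain (fun w => w.comap ((D.ρ D.gι : N ≃ₐ[k] N) : N →ₐ[k] N)), ?_,
      fun φ hφ => ?_⟩
    · have h1 := sub_mem_odd ι D.ιι (a₀.mapDomain (fun w => w.comap D.e6))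
      rw [Finsupp.mapDomain_sub]
      convert h1 using 2
      rw [← Finsupp.mapDomain_comp, ← Finsupp.mapDomain_comp]
      congr 1
      funext w
      change (w.comap _).comap _ = (w.comap _).comap _
      rw [RPl.comap_comap, RPl.comap_comap]
      congr 1
      ext z
      exact D.hι z
    · obtain ⟨S, hS⟩ := D.main hrat (u := fun v => φ (evP ξ hξ v)) ⟨M, ξ, hξ, φ, hφ, fun w => rfl⟩
      have h1 : (fun w : RPl k N => ∑ j, φ (evP ξ hξ (w.comap (f j)))) = fun w => φ (evP ξ hξ (w.comap (D.e 0))) +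
          φ (evP ξ hξ (w.comap (D.e 1))) := by
        funext w
        exact hf w (fun v => φ (evP ξ hξ v))
      rw [h1, map_sub, Finsupp.linearCombination_mapDomain, ha₀, map_sum, map_sum, ← Finset.sum_sub_distrib]
      have h2 : ∀ j : Fin 4, Finsupp.linearCombination ℤ (fun w : RPl k N => φ (evP ξ hξ (w.comap (D.e 0))) +
          φ (evP ξ hξ (w.comap (D.e 1)))) (if D.Cj j then c.mapDomain (fun v => (L v).comap
            ((D.ρ (D.gj j) : N ≃ₐ[k] N) : N →ₐ[k] N)) else 0) -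
          Finsupp.linearCombination ℤ ((fun w : RPl k N => φ (evP ξ hξ (w.comap (D.e 0))) +
          φ (evP ξ hξ (w.comap (D.e 1)))) ∘ fun w => w.comap ((D.ρ D.gι : N ≃ₐ[k] N) : N →ₐ[k] N))
            (if D.Cj j then c.mapDomain (fun v => (L v).comap
              ((D.ρ (D.gj j) : N ≃ₐ[k] N) : N →ₐ[k] N)) else 0) =
          Finsupp.linearCombination ℤ (fun v : RPl k F => if D.Cj j then
            ((φ (evP ξ hξ (((L v).comap ((D.ρ (D.gj j) : N ≃ₐ[k] N) : N →ₐ[k] N)).comap (D.e 0))) +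
              φ (evP ξ hξ (((L v).comap ((D.ρ (D.gj j) : N ≃ₐ[k] N) : N →ₐ[k] N)).comap (D.e 1)))) -
            (φ (evP ξ hξ ((((L v).comap ((D.ρ (D.gj j) : N ≃ₐ[k] N) : N →ₐ[k] N)).comap
                ((D.ρ D.gι : N ≃ₐ[k] N) : N →ₐ[k] N)).comap (D.e 0))) +
              φ (evP ξ hξ ((((L v).comap ((D.ρ (D.gj j) : N ≃ₐ[k] N) : N →ₐ[k] N)).comap
                ((D.ρ D.gι : N ≃ₐ[k] N) : N →ₐ[k] N)).comap (D.e 1))))) else 0) c := by
        intro j
        by_cases hj : D.Cj j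
        · simp only [if_pos hj]
          rw [Finsupp.linearCombination_mapDomain, Finsupp.linearCombination_mapDomain]
          rw [lin_sub_fn]
          rfl
        · simp only [if_neg hj, map_zero, sub_zero]
          rw [Finsupp.linearCombination_apply]
          simp
      rw [Finset.sum_congr rfl fun j _ => h2 j]
      have h3 : ∑ j : Fin 4, Finsupp.linearCombination ℤ (fun v : RPl k F => if D.Cj j then
            ((φ (evP ξ hξ (((L v).comap ((D.ρ (D.gj j) : N ≃ₐ[k] N) : N →ₐ[k] N)).comap (D.e 0))) +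
              φ (evP ξ hξ (((L v).comap ((D.ρ (D.gj j) : N ≃ₐ[k] N) : N →ₐ[k] N)).comap (D.e 1)))) -
            (φ (evP ξ hξ ((((L v).comap ((D.ρ (D.gj j) : N ≃ₐ[k] N) : N →ₐ[k] N)).comap
                ((D.ρ D.gι : N ≃ₐ[k] N) : N →ₐ[k] N)).comap (D.e 0))) +
              φ (evP ξ hξ ((((L v).comap ((D.ρ (D.gj j) : N ≃ₐ[k] N) : N →ₐ[k] N)).comap
                ((D.ρ D.gι : N ≃ₐ[k] N) : N →ₐ[k] N)).comap (D.e 1))))) else 0) c =
          Finsupp.linearCombination ℤ (fun v : RPl k F => 4 * φ (evP ξ hξ v) - S) c := by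
        simp only [Finsupp.linearCombination_apply, Finsupp.sum]
        rw [Finset.sum_comm]
        refine Finset.sum_congr rfl fun v _ => ?_
        rw [← Finset.smul_sum]
        congr 1
        have h4 := hS (L v)
        beta_reduce at h4
        rw [hL v] at h4
        rw [h4, add_sub_cancel_right]
      rw [h3, hbc, Finsupp.linearCombination_mapDomain]
      have h5 : Finsupp.linearCombination ℤ (fun v : RPl k F => 4 * φ (evP ξ hξ v) - S) c =
          4 * Finsupp.linearCombination ℤ (fun v : RPl k F => φ (evP ξ hξ v)) c -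
            ((c.sum (fun _ c => c) : ℤ) : k) * S := by
        simp only [Finsupp.linearCombination_apply, Finsupp.sum, Finset.mul_sum, Int.cast_sum, Finset.sum_mul,
          ← Finset.sum_sub_distrib, zsmul_eq_mul]
        refine Finset.sum_congr rfl fun v _ => ?_
        ring
      rw [h5, hc0]
      change ((4 : ℕ) : k) * Finsupp.linearCombination ℤ (fun v : RPl k F => φ (evP ξ hξ v)) c = _
      push_cast
      ring

end

end Pool.Agent.Helper15.KP
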