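import Mathlib
import Pool.Agent.Helper9.NS
import Pool.Agent.Helper15.KP.StepB
import Pool.Agent.Helper5.KP.Rat
import Pool.Agent.Helper67.KP.ExA1
import Pool.Agent.Helper70.KX.Ell

/-!
# KP: surfaces with p_g = K ^ 2 = 1, the theorem
-/

set_option linter.unusedSectionVars false

namespace Pool.Agent.Helper15.KP

open VC VF Function Polynomial Pool.Agent.Helper21.TO Pool.Agent.Helper15.GT

universe u

variable {k : Type u} [Field k] [IsAlgClosed k] [CharZero k]

/-- Step A for families of plane cubics. -/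
theorem stepA {F : Type u} [Field F] [Algebra k F] (D : CD k F) {p : ℕ}
    (hE : EllVP k (27 * X ^ 2 * PS D.c) (54 * X ^ 3 * PT D.c) p) (M : ℕ) (ξ : Fin M → F) (hξ : ξ ≠ 0) (n : ℕ)
    (hn : p < n) : VoisinOn (proj k (van k ξ)) {b | ∃ a ∈ Odd D.ι, b = a.mapDomain (evP ξ hξ)} n := by
  obtain ⟨Ω, _, _, G, Γ, _, _, _, _, ⟨A⟩⟩ := exists_a1 D
  exact stepA_of A.toG hE M ξ hξ n hn

/-- The sum of the four conjugates comes from a rational surface. -/
lemma QG.rat {F N F6 G : Type u} [Field F] [Algebra k F] [Field N] [Algebra k N] [Field F6] [Algebra k F6]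
    [Group G] [Fintype G] {ι : F6 ≃ₐ[k] F6} (D : QG k F N F6 G ι)
    (u : RPl k (IntermediateField.adjoin k {D.s, D.t}) → k) (hu : HF k _ u) (w w' : RPl k _) : u w = u w' := by
  have hs : D.s ∈ IntermediateField.adjoin k {D.s, D.t} := IntermediateField.subset_adjoin _ _ (by simp)
  have ht : D.t ∈ IntermediateField.adjoin k {D.s, D.t} := IntermediateField.subset_adjoin _ _ (by simp)
  refine HF.const_of_rat (⟨D.s, hs⟩ : IntermediateField.adjoin k {D.s, D.t}) ⟨D.t, ht⟩ ?_ ?_ hu w w'
  · have h1 := D.ind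
    have e : ![D.s, D.t] = (IntermediateField.val (IntermediateField.adjoin k {D.s, D.t})) ∘
        ![⟨D.s, hs⟩, ⟨D.t, ht⟩] := by
      funext i
      fin_cases i <;> rfl
    rw [e] at h1
    exact h1.of_comp _
  · apply IntermediateField.map_injective (IntermediateField.val (IntermediateField.adjoin k {D.s, D.t}))
    rw [IntermediateField.adjoin_map, Set.image_insert_eq, Set.image_singleton,
      ← AlgHom.fieldRange_eq_map, IntermediateField.fieldRange_val]
    rfl

/-- Step B. -/
theorem stepB {F N F6 G : Type u} [Field F] [Algebra k F] [Field N] [Algebra k N] [Field F6] [Algebra k F6]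
    [Group G] [Fintype G] (D : QD k F N F6 G) {p : ℕ}
    (hE : EllVP k (27 * X ^ 2 * PS D.cd.c) (54 * X ^ 3 * PT D.cd.c) p) : VP k F p :=
  stepB_of D.toG (stepA D.cd hE) D.toG.rat

end Pool.Agent.Helper15.KP
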