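import Mathlib
import Pool.Agent.Helper9.NS
import Pool.Agent.Helper15.KP.Main
import Pool.Agent.Helper70.KX.StepT
import Pool.Agent.Helper50.KS.Qd

/-!
# KP: surfaces with p_g = K ^ 2 = 1, the theorem
-/

set_option linter.unusedSectionVars false

namespace Pool.Agent.Helper15.KP

open VC VF Function Polynomial Pool.Agent.Helper21.TO Pool.Agent.Helper15.GT

universe u

variable {k : Type u} [Field k] [IsAlgClosed k] [CharZero k]

/-- Voisin's property for `n ≥ 2` for the function fields of the surfaces with `p_g = K ^ 2 = 1`. -/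
theorem kp_main {F : Type u} [Field F] [Algebra k F] (s t z w : F) (a b f g : MvPolynomial (Fin 3) k)
    (ha : a.IsHomogeneous 1) (hb : b.IsHomogeneous 1) (hf : f.IsHomogeneous 3) (hg : g.IsHomogeneous 3)
    (hst : AlgebraicIndependent k ![s, t])
    (hz : z ^ 2 = MvPolynomial.aeval ![s, t, 1] a * w + MvPolynomial.aeval ![s, t, 1] f)
    (hw : w ^ 2 = MvPolynomial.aeval ![s, t, 1] b * z + MvPolynomial.aeval ![s, t, 1] g)
    (hgen : IntermediateField.adjoin k {s, t, z, w} = ⊤)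
    (hdeg : Module.finrank (IntermediateField.adjoin k {s, t}) F = 4)
    (hsm : ∃ l : k, ∀ p : Fin 3 → k, (∀ i, MvPolynomial.eval p (MvPolynomial.pderiv i (Cl a b f g l)) = 0) → p = 0)
    (hq : Reg k F) :
    VP k F 1 := by
  obtain ⟨N, F6, G, _, _, _, _, _, _, D, A, B, hA, hB, hS, hT⟩ := exists_qd s t z w a b f g ha hb hf hg hst hz hw hgen
    hdeg hsm hq
  have hd : A ^ 3 + B ^ 2 ≠ 0 := by
    intro h0
    apply D.cd.dsc
    unfold Dsc
    rw [hS, hT]
    linear_combination X ^ 6 * h0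
  rcases ellVP A B hA hB hd with h | ⟨α, β, U, hU, rfl, rfl⟩
  · refine stepB D ?_
    rw [hS, hT]
    have e1 : (27 * X ^ 2 * (X ^ 2 * A) : k[X]) = 27 * X ^ 4 * A := by ring
    have e2 : (54 * X ^ 3 * (X ^ 3 * B) : k[X]) = 54 * X ^ 6 * B := by ring
    rw [e1, e2]
    exact h
  · obtain ⟨Ω, _, _, G', Γ, _, _, _, _, ⟨A1⟩⟩ := exists_a1 D.cd
    have h0 := Pool.Agent.Helper70.KX.stepT_of D A1 D.toG.rat hq α β U hU hS hT
    intro M ξ hξ n hn
    exact h0 M ξ hξ n (by omega)

end Pool.Agent.Helper15.KP
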